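import Mathlib

/-! # Valuations with residue field equal to the constant field on superelliptic function fields -/

set_option autoImplicit false

namespace Pool.Agent.U218.VX

open Polynomial

section

variable {k F : Type} [Field k] [Field F] [Algebra k F] (O : ValuationSubring F)

lemma val_const (hO : ∀ c : k, algebraMap k F c ∈ O) {c : k} (hc : c ≠ 0) :
    O.valuation (algebraMap k F c) = 1 := by
  apply le_antisymm ((O.valuation_le_one_iff _).2 (hO c))
  have h1 := (O.valuation_le_one_iff _).2 (hO c⁻¹)
  rw [map_inv₀, map_inv₀] at h1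
  have h2 : O.valuation (algebraMap k F c) ≠ 0 := by
    rw [Ne, map_eq_zero, map_eq_zero]
    exact hc
  exact (inv_le_one₀ (zero_lt_iff.2 h2)).1 h1

/-- congruent constants are equal -/
lemma eq_of_val_lt (hO : ∀ c : k, algebraMap k F c ∈ O) {c : k}
    (h : O.valuation (algebraMap k F c) < 1) : c = 0 := by
  by_contra hc
  rw [val_const O hO hc] at h
  exact lt_irrefl _ h

/-- values of polynomials at congruent elements -/
lemma val_aeval_sub (hO : ∀ c : k, algebraMap k F c ∈ O) (g : k[X]) {x y : F} (hx : x ∈ O)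
    (hy : y ∈ O) (h : O.valuation (x - y) < 1) : O.valuation (aeval x g - aeval y g) < 1 := by
  obtain ⟨q, hq⟩ : ∃ q : F, q ∈ O ∧ aeval x g - aeval y g = (x - y) * q := by
    let g' : O[X] := g.map ((algebraMap k F).codRestrict O.toSubring hO)
    have hg' : ∀ z (hz : z ∈ O), ((g'.eval ⟨z, hz⟩ : O) : F) = aeval z g := by
      intro z hz
      change O.subtype (g'.eval ⟨z, hz⟩) = _
      rw [eval_map, Polynomial.hom_eval₂, aeval_def]
      rfl
    obtain ⟨q, hq⟩ := Polynomial.sub_dvd_eval_sub (⟨x, hx⟩ : O) ⟨y, hy⟩ g'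
    refine ⟨q, q.2, ?_⟩
    rw [← hg' x hx, ← hg' y hy]
    exact congrArg Subtype.val hq
  rw [hq.2, map_mul]
  exact mul_lt_one_of_lt_of_le h ((O.valuation_le_one_iff _).2 hq.1)

/-- the value of a polynomial at an element outside the valuation ring -/
lemma val_lead (hO : ∀ c : k, algebraMap k F c ∈ O) (g : k[X]) {x : F} (hx : x ∉ O) :
    O.valuation (aeval x g / x ^ g.natDegree - algebraMap k F g.leadingCoeff) < 1 := by
  have hx0 : x ≠ 0 := by
    rintro rfl
    exact hx O.zero_mem
  have hxi : O.valuation x⁻¹ < 1 := by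
    rw [map_inv₀]
    have h1 : 1 < O.valuation x := by
      rw [← not_le, O.valuation_le_one_iff]
      exact hx
    exact inv_lt_one_of_one_lt₀ h1
  have hxiO : x⁻¹ ∈ O := (O.valuation_le_one_iff _).1 hxi.le
  have h1 : aeval x g / x ^ g.natDegree = aeval x⁻¹ g.reverse := by
    let _ : Invertible x := invertibleOfNonzero hx0
    have h2 := Polynomial.eval₂_reverse_mul_pow (algebraMap k F) x g
    rw [invOf_eq_inv] at h2
    rw [aeval_def, aeval_def, ← h2, mul_div_assoc, div_self (pow_ne_zero _ hx0), mul_one]
  rw [h1]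
  have h2 : algebraMap k F g.leadingCoeff = aeval 0 g.reverse := by
    rw [← Polynomial.coeff_zero_reverse, coeff_zero_eq_aeval_zero']
  rw [h2]
  exact val_aeval_sub O hO _ hxiO O.zero_mem (by rwa [sub_zero])

/-- no valuation ring over the constants has the constants as residue field if there are no points -/
theorem no_val {n : ℕ} (hn : 0 < n) {a : k} (ha : a ≠ 0) {g : k[X]}
    (h1 : ¬ ∃ x y : k, a * y ^ n = g.eval x)
    (h2 : ¬ ∃ r : k, a * r ^ Nat.gcd n g.natDegree = g.leadingCoeff) {x y : F}
    (hxy : algebraMap k F a * y ^ n = aeval x g) (hO : ∀ c : k, algebraMap k F c ∈ O) :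
    ¬ ∀ z ∈ O, ∃ c : k, O.valuation (z - algebraMap k F c) < 1 := by
  intro hres
  have hva : O.valuation (algebraMap k F a) = 1 := val_const O hO ha
  have hpow : ∀ (z : F) (c : k) (j : ℕ), z ∈ O → O.valuation (z - algebraMap k F c) < 1 →
      O.valuation (z ^ j - algebraMap k F (c ^ j)) < 1 := by
    intro z c j hz hc
    have h3 := val_aeval_sub O hO (X ^ j : k[X]) hz (hO c) hc
    rw [map_pow, map_pow, aeval_X, aeval_X, ← map_pow] at h3
    exact h3
  by_cases hx : x ∈ O
  · have hg : aeval x g ∈ O := by
      have h4 : ∀ q : k[X], aeval x q ∈ O := by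
        intro q
        induction q using Polynomial.induction_on' with
        | add p q hp hq =>
          rw [map_add]
          exact O.add_mem _ _ hp hq
        | monomial i c =>
          rw [aeval_monomial]
          exact O.mul_mem _ _ (hO c) (pow_mem hx i)
      exact h4 g
    have hy : y ∈ O := by
      rw [← O.valuation_le_one_iff]
      have h3 : O.valuation y ^ n ≤ 1 := by
        rw [← O.valuation_le_one_iff, ← hxy, map_mul, hva, one_mul, map_pow] at hg
        exact hg
      exact (pow_le_one_iff hn.ne').1 h3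
    obtain ⟨c, hc⟩ := hres x hx
    obtain ⟨c', hc'⟩ := hres y hy
    apply h1
    refine ⟨c, c', ?_⟩
    have h3 := val_aeval_sub O hO g hx (hO c) hc
    have h4 := hpow y c' n hy hc'
    have h5 : O.valuation (algebraMap k F (a * c' ^ n - g.eval c)) < 1 := by
      have e : algebraMap k F (a * c' ^ n - g.eval c) =
          (aeval x g - aeval (algebraMap k F c) g) -
            algebraMap k F a * (y ^ n - algebraMap k F (c' ^ n)) := by
        rw [← hxy, aeval_algebraMap_apply, map_sub, map_mul, ← coe_aeval_eq_eval]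
        ring
      rw [e]
      refine (O.valuation.map_sub _ _).trans_lt (max_lt h3 ?_)
      rw [map_mul, hva, one_mul]
      exact h4
    exact sub_eq_zero.1 (eq_of_val_lt O hO h5)
  · obtain ⟨d, hd⟩ : ∃ d, d = g.natDegree := ⟨_, rfl⟩
    obtain ⟨e, he⟩ : ∃ e, e = Nat.gcd n g.natDegree := ⟨_, rfl⟩
    rw [← he] at h2
    have hx0 : x ≠ 0 := by
      rintro rfl
      exact hx O.zero_mem
    have he0 : 0 < e := by
      rw [he]
      exact Nat.gcd_pos_of_pos_left _ hn
    obtain ⟨n', hn'⟩ : e ∣ n := he ▸ Nat.gcd_dvd_left _ _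
    obtain ⟨d', hd'⟩ : e ∣ d := by
      rw [he, hd]
      exact Nat.gcd_dvd_right _ _
    obtain ⟨r, hr⟩ : ∃ r, r = y ^ n' / x ^ d' := ⟨_, rfl⟩
    have h3 := val_lead O hO g hx
    have h4 : algebraMap k F a * r ^ e = aeval x g / x ^ g.natDegree := by
      rw [hr, div_pow, ← pow_mul, ← pow_mul, mul_comm n', mul_comm d', ← hn', ← hd', ← hxy, hd,
        mul_div_assoc]
    rw [← h4] at h3
    have hlc : O.valuation (algebraMap k F g.leadingCoeff) ≤ 1 := (O.valuation_le_one_iff _).2 (hO _)
    have hr1 : O.valuation r ^ e ≤ 1 := by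
      have h5 : algebraMap k F a * r ^ e = (algebraMap k F a * r ^ e -
        algebraMap k F g.leadingCoeff) + algebraMap k F g.leadingCoeff := by ring
      have h6 : O.valuation (algebraMap k F a * r ^ e) ≤ 1 := by
        rw [h5]
        exact (O.valuation.map_add _ _).trans (max_le h3.le hlc)
      rwa [map_mul, hva, one_mul, map_pow] at h6
    have hrO : r ∈ O := by
      rw [← O.valuation_le_one_iff]
      exact (pow_le_one_iff he0.ne').1 hr1
    obtain ⟨c, hc⟩ := hres r hrO
    apply h2
    refine ⟨c, ?_⟩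
    have h5 := hpow r c e hrO hc
    have h6 : O.valuation (algebraMap k F (a * c ^ e - g.leadingCoeff)) < 1 := by
      have e1 : algebraMap k F (a * c ^ e - g.leadingCoeff) =
          (algebraMap k F a * r ^ e - algebraMap k F g.leadingCoeff) -
            algebraMap k F a * (r ^ e - algebraMap k F (c ^ e)) := by
        rw [map_sub, map_mul]
        ring
      rw [e1]
      refine (O.valuation.map_sub _ _).trans_lt (max_lt h3 ?_)
      rw [map_mul, hva, one_mul]
      exact h5
    exact sub_eq_zero.1 (eq_of_val_lt O hO h6)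

end

end Pool.Agent.U218.VX
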