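import Pool.Agent.U218.VX.Num

/-! # Fields with a mild discrete valuation above a prime -/

set_option autoImplicit false
set_option linter.all false

namespace Pool.Agent.U218.VX

open IsDedekindDomain NumberField WithZero Polynomial
open Pool.Agent.U218.UX

/-- the subfields of the maximal extension of exponent `m` -/
theorem mild_of_emb {m ℓ : ℕ} (hℓm : ¬ ℓ ∣ m) {K L : Type} [Field K] [NumberField K] [Field L]
    [Algebra K L] (i : L →ₐ[K] AlgebraicClosure K)
    (hi : ∀ (σ : AlgebraicClosure K ≃ₐ[K] AlgebraicClosure K) (x : L), (σ ^ m) (i x) = i x)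
    (v : HeightOneSpectrum (𝓞 K)) (hv : (m : 𝓞 K) ∉ v.asIdeal) : Mild m ℓ v L := by
  have hgal := galois_expField m K
  have hfin : Finite (𝓞 K ⧸ v.asIdeal) := Ideal.finiteQuotientOfFreeOfNeBot _ v.ne_bot
  obtain ⟨V, h1, h2⟩ := exists_val (A := 𝓞 K) (k := K) (E := expField m K) m (pow_expField m K) v hv
  let i' : L →+* expField m K := (i : L →+* AlgebraicClosure K).codRestrict (expField m K)
    (fun x => mem_expField.2 fun σ => hi σ x)
  refine ⟨V.comap i', m, hℓm, fun x => ?_, fun x hx => ?_⟩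
  · rw [Valuation.comap_apply, ← h1]
    congr 1
    apply Subtype.ext
    exact i.commutes x
  · rw [Valuation.comap_apply, map_sub, map_pow]
    exact h2 _ hx

/-- the number fields with a mild prime -/
theorem mild_of_prime {m ℓ : ℕ} {K L : Type} [Field K] [NumberField K] [Field L] [NumberField L]
    [Algebra K L] (v : HeightOneSpectrum (𝓞 K)) (w : HeightOneSpectrum (𝓞 L))
    (hw : w.asIdeal.under (𝓞 K) = v.asIdeal) (he : ¬ ℓ ∣ w.asIdeal.ramificationIdx (𝓞 K))
    (hres : ∀ r : 𝓞 L, r ^ (Ideal.absNorm v.asIdeal ^ m) - r ∈ w.asIdeal) : Mild m ℓ v L := by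
  have hlo : w.asIdeal.LiesOver v.asIdeal := ⟨hw.symm⟩
  have hwm : w.asIdeal.IsMaximal := w.isMaximal
  have hwp : w.asIdeal.IsPrime := w.isPrime
  refine ⟨w.valuation L, w.asIdeal.ramificationIdx (𝓞 K), he, fun x => ?_, fun x hx => ?_⟩
  · rw [← HeightOneSpectrum.valuation_liesOver L v w,
      Ideal.ramificationIdx'_eq_ramificationIdx v.asIdeal w.asIdeal v.ne_bot]
  · obtain ⟨b, s, hs, hbs⟩ := exists_frac w x hx
    obtain ⟨Q, hQ⟩ : ∃ Q, Q = Ideal.absNorm v.asIdeal ^ m := ⟨_, rfl⟩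
    rw [← hQ] at hres ⊢
    have hs0 : algebraMap (𝓞 L) L s ≠ 0 := by
      intro h
      apply hs
      have h1 : s = 0 := (map_eq_zero_iff _ (IsFractionRing.injective (𝓞 L) L)).1 h
      rw [h1]
      exact Ideal.zero_mem _
    have hx1 : x = algebraMap (𝓞 L) L b / algebraMap (𝓞 L) L s := by
      rw [← hbs, mul_div_assoc, div_self hs0, mul_one]
    have h2 : b ^ Q * s - b * s ^ Q ∈ w.asIdeal := by
      have e : b ^ Q * s - b * s ^ Q = (b ^ Q - b) * s - b * (s ^ Q - s) := by ring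
      rw [e]
      exact Ideal.sub_mem _ (Ideal.mul_mem_right _ _ (hres b)) (Ideal.mul_mem_left _ _ (hres s))
    have h3 : x ^ Q - x = algebraMap (𝓞 L) L (b ^ Q * s - b * s ^ Q) /
        algebraMap (𝓞 L) L (s ^ (Q + 1)) := by
      rw [hx1, div_pow, div_sub_div _ _ (pow_ne_zero _ hs0) hs0]
      simp only [map_sub, map_mul, map_pow]
      rw [pow_succ, mul_comm (algebraMap (𝓞 L) L s ^ Q) (algebraMap (𝓞 L) L b)]
    have h4 : w.valuation L (algebraMap (𝓞 L) L (s ^ (Q + 1))) = 1 := by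
      rw [map_pow, map_pow, (HeightOneSpectrum.valuation_eq_one_iff_notMem w).2 hs, one_pow]
    rw [h3, map_div₀, h4, div_one]
    exact (HeightOneSpectrum.valuation_lt_one_iff_mem w _).2 h2

/-- the completion -/
theorem mild_completion (m : ℕ) {ℓ : ℕ} (hℓ : ℓ.Prime) {K : Type} [Field K] [NumberField K]
    (v : HeightOneSpectrum (𝓞 K)) : Mild m ℓ v (v.adicCompletion K) := by
  have hfin : Finite (𝓞 K ⧸ v.asIdeal) := Ideal.finiteQuotientOfFreeOfNeBot _ v.ne_bot
  refine ⟨vc K v, 1, fun h => hℓ.one_lt.ne' (Nat.dvd_one.1 h), fun x => ?_, fun x hx => ?_⟩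
  · rw [vc_algebraMap, pow_one]
  · obtain ⟨θ, hθ⟩ := exists_residue (E := K) v
    have hmaxv : v.asIdeal.IsMaximal := v.isMaximal
    obtain ⟨y, hy⟩ := hθ (IsLocalRing.residue _ (⟨x, hx⟩ : (vc K v).valuationSubring))
    have hyq : y ^ (Ideal.absNorm v.asIdeal ^ m) = y := by
      let _ := Ideal.Quotient.field v.asIdeal
      have := Fintype.ofFinite (𝓞 K ⧸ v.asIdeal)
      have h1 : Ideal.absNorm v.asIdeal = Fintype.card (𝓞 K ⧸ v.asIdeal) := by
        rw [Ideal.absNorm_apply, Submodule.cardQuot_apply, Nat.card_eq_fintype_card]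
      rw [h1]
      exact FiniteField.pow_card_pow m y
    have h2 : IsLocalRing.residue _ ((⟨x, hx⟩ : (vc K v).valuationSubring) ^
        (Ideal.absNorm v.asIdeal ^ m) - ⟨x, hx⟩) = 0 := by
      rw [map_sub, map_pow, ← hy, ← map_pow, hyq, sub_self]
    rw [IsLocalRing.residue_eq_zero_iff, mem_max] at h2
    exact h2

end Pool.Agent.U218.VX
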