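import Pool.Agent.U218.UX.Loc2
import Pool.Agent.U218.UX.D1d
import Pool.Agent.U218.UX.Fam
import Pool.Agent.Y157.PS.SupN
import Pool.Agent.Y674.PS.Fun
import Pool.Agent.Y157.PS.All
import Pool.Agent.W858.SG.Dens

/-! # Superelliptic twists over all fields with a mild discrete valuation above one prime -/

set_option autoImplicit false
set_option linter.all false

namespace Pool.Agent.U218.VX

open IsDedekindDomain NumberField WithZero Polynomial
open Pool.Agent.Y157.PS (S_FUN FineP)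
open Pool.Agent.U218.UX

/-- `L` has a discrete valuation above `v` with ramification index prime to `ℓ` and residue field inside the
extension of degree `m` of the one of `v` -/
def Mild (m ℓ : ℕ) {K : Type} [Field K] [NumberField K] (v : HeightOneSpectrum (𝓞 K)) (L : Type)
    [Field L] [Algebra K L] : Prop :=
  ∃ (V : Valuation L ℤᵐ⁰) (e : ℕ), ¬ ℓ ∣ e ∧
    (∀ x : K, V (algebraMap K L x) = v.valuation K x ^ e) ∧
    ∀ x : L, V x ≤ 1 → V (x ^ (Ideal.absNorm v.asIdeal ^ m) - x) < 1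

theorem exists_primes (hFUN : S_FUN) (n : ℕ) {K : Type} [Field K] [NumberField K] (f : K[X])
    (hf : f.Separable) (h3 : 3 ≤ f.natDegree)
    (hσ : ∃ σ : AlgebraicClosure K ≃ₐ[K] AlgebraicClosure K,
      ∀ θ : AlgebraicClosure K, aeval θ f = 0 → (σ ^ n) θ ≠ θ) (ε : ℝ) (hε : 0 < ε) :
    ∃ T : Finset (HeightOneSpectrum (𝓞 K)),
      (∀ v ∈ T, (n : 𝓞 K) ∉ v.asIdeal ∧ ∀ a : 𝓞 K, a ∈ v.asIdeal → a ∉ v.asIdeal ^ 2 →
        ∀ ℓ : ℕ, ℓ.Prime → ℓ ∣ f.natDegree → ∀ (L : Type) [Field L] [Algebra K L], Mild n ℓ v L →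
          FineP ℓ (algebraMap K L (algebraMap (𝓞 K) K a)) (f.map (algebraMap K L))) ∧
      ∏ v ∈ T, (1 - (1 / (Ideal.absNorm v.asIdeal : ℝ) -
        1 / (Ideal.absNorm v.asIdeal : ℝ) ^ 2)) < ε := by
  classical
  obtain ⟨c, hc, hcf⟩ := IsLocalization.integerNormalization_spec (nonZeroDivisors (𝓞 K)) f
  set g := IsLocalization.integerNormalization (nonZeroDivisors (𝓞 K)) f with hg
  have hc0 : c ≠ 0 := nonZeroDivisors.ne_zero hc
  have hinj : Function.Injective (algebraMap (𝓞 K) K) := IsFractionRing.injective (𝓞 K) K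
  have hcK : algebraMap (𝓞 K) K c ≠ 0 := by
    rw [Ne, map_eq_zero_iff _ hinj]
    exact hc0
  have hgf : g.map (algebraMap (𝓞 K) K) = C (algebraMap (𝓞 K) K c) * f := by
    rw [hcf]
    ext i
    rw [coeff_smul, coeff_C_mul, Algebra.smul_def]
  have hdeg : g.natDegree = f.natDegree := by
    rw [← natDegree_map_eq_of_injective hinj g, hgf, natDegree_C_mul hcK]
  have hgs : (g.map (algebraMap (𝓞 K) K)).Separable := by
    rw [hgf]
    exact Separable.unit_mul (isUnit_C.2 hcK.isUnit) hf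
  have hgσ : ∃ σ : AlgebraicClosure K ≃ₐ[K] AlgebraicClosure K,
      ∀ θ : AlgebraicClosure K, aeval θ (g.map (algebraMap (𝓞 K) K)) = 0 → (σ ^ n) θ ≠ θ := by
    obtain ⟨σ, hσ⟩ := hσ
    refine ⟨σ, fun θ hθ => hσ θ ?_⟩
    rw [hgf, map_mul, aeval_C] at hθ
    exact (mul_eq_zero.1 hθ).resolve_left ((_root_.map_ne_zero _).2 hcK)
  have hn0 : n ≠ 0 := by
    rintro rfl
    obtain ⟨σ, hσ⟩ := hσ
    obtain ⟨θ, hθ⟩ := IsAlgClosed.exists_aeval_eq_zero (AlgebraicClosure K) f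
      (natDegree_pos_iff_degree_pos.1 (by omega)).ne'
    refine hσ θ hθ ?_
    rw [pow_zero, AlgEquiv.one_apply]
  have hnO : (n : 𝓞 K) ≠ 0 := by exact_mod_cast hn0
  have hdc : c * (f.natDegree : 𝓞 K) * (n : 𝓞 K) ≠ 0 := by
    refine mul_ne_zero (mul_ne_zero hc0 ?_) hnO
    rw [Nat.cast_ne_zero]
    omega
  obtain ⟨T, hT, hTε⟩ := partD1 n K g (c * (f.natDegree : 𝓞 K) * (n : 𝓞 K)) hdc hgs hgσ ε hε
  refine ⟨T, ?_, hTε⟩
  intro v hv
  obtain ⟨hcv', -, hlcv, hsv, hrv⟩ := hT v hv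
  refine ⟨fun h => hcv' (Ideal.mul_mem_left _ _ h), ?_⟩
  intro a ha ha' ℓ hℓ hℓd L _ _ hL
  have hvp : v.asIdeal.IsPrime := v.isPrime
  have hvm : v.asIdeal.IsMaximal := v.isMaximal
  have hcv : c ∉ v.asIdeal := fun h => hcv' (Ideal.mul_mem_right _ _ (Ideal.mul_mem_right _ _ h))
  have hℓv : (ℓ : 𝓞 K) ∉ v.asIdeal := by
    intro h
    apply hcv'
    obtain ⟨n', hn'⟩ := hℓd
    rw [hn']
    push_cast
    exact Ideal.mul_mem_right _ _ (Ideal.mul_mem_left _ _ (Ideal.mul_mem_right _ _ h))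
  have hfact : Fact ℓ.Prime := ⟨hℓ⟩
  have hczL : CharZero L := charZero_of_injective_algebraMap (algebraMap K L).injective
  have hfinr : Finite (𝓞 K ⧸ v.asIdeal) := Ideal.finiteQuotientOfFreeOfNeBot _ v.ne_bot
  have hval : v.valuation K (algebraMap (𝓞 K) K (c * a)) = exp (-1) := by
    rw [HeightOneSpectrum.valuation_of_algebraMap, map_mul]
    have h1 : v.intValuation c = 1 := by
      exact (HeightOneSpectrum.intValuation_eq_one_iff).2 hcv
    have h2 : v.intValuation a = exp (-1) := by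
      apply le_antisymm
      · exact (v.intValuation_le_pow_iff_mem a 1).2 (by rwa [pow_one])
      · by_contra h3
        rw [not_le] at h3
        apply ha'
        apply (v.intValuation_le_pow_iff_mem a 2).1
        have h4 := Pool.Agent.W858.SG.lt_exp_neg_one _ h3
        exact h4
    rw [h1, h2, one_mul]
  obtain ⟨V, e, he, hV, hV2⟩ := hL
  obtain ⟨B, _, _, _, _, w, hw⟩ := fineP_val hFUN (k := K) v hℓv g hlcv hsv (by rwa [hdeg])
    (by rwa [hdeg]) n hn0 (by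
      intro κ _ j r hj hr
      refine hrv κ j r hj ?_
      exact hr) (algebraMap (𝓞 K) K (c * a)) (-1) (by
      intro h
      have h5 := Int.natAbs_dvd_natAbs.2 h
      simp at h5
      exact hℓ.one_lt.ne' h5) hval L V e he hV (by
      intro x hx
      exact hV2 x hx)
  have key := hw L (algebraMap K L) (algebraMap L (w.adicCompletion L)) (fun x => rfl)
  rw [hgf, map_mul, map_mul, Polynomial.map_mul, map_C] at key
  exact key.scale ((_root_.map_ne_zero (algebraMap K L)).2 hcK)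

theorem density (n : ℕ) {K : Type} [Field K] [NumberField K] (f : K[X])
    (hf : f.Separable) (h3 : 3 ≤ f.natDegree)
    (hσ : ∃ σ : AlgebraicClosure K ≃ₐ[K] AlgebraicClosure K,
      ∀ θ : AlgebraicClosure K, aeval θ f = 0 → (σ ^ n) θ ≠ θ) (ε : ℝ) (hε : 0 < ε) :
    ∃ I : Ideal (𝓞 K), I ≠ ⊥ ∧
      (Set.ncard ((Ideal.Quotient.mk I) ''
        {a : 𝓞 K | ¬ (a ≠ 0 ∧ ∃ v : HeightOneSpectrum (𝓞 K), (n : 𝓞 K) ∉ v.asIdeal ∧
          ∀ ℓ : ℕ, ℓ.Prime → ℓ ∣ f.natDegree → ∀ (L : Type) [Field L] [Algebra K L], Mild n ℓ v L →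
          FineP ℓ (algebraMap K L (algebraMap (𝓞 K) K a)) (f.map (algebraMap K L)))}) : ℝ) ≤
      ε * Nat.card (𝓞 K ⧸ I) := by
  obtain ⟨T, hT, hTε⟩ := exists_primes (Pool.Agent.Y674.PS.funct Pool.Agent.Y157.PS.a_inrt) n f hf h3
    hσ ε hε
  refine ⟨∏ v ∈ T, v.asIdeal ^ 2, ?_, ?_⟩
  · refine Finset.prod_ne_zero_iff.2 fun v _ => pow_ne_zero _ v.ne_bot
  · have h1 := Pool.Agent.W417.SecC.D2.partD2 K T
      {a : 𝓞 K | ¬ (a ≠ 0 ∧ ∃ v : HeightOneSpectrum (𝓞 K), (n : 𝓞 K) ∉ v.asIdeal ∧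
          ∀ ℓ : ℕ, ℓ.Prime → ℓ ∣ f.natDegree → ∀ (L : Type) [Field L] [Algebra K L], Mild n ℓ v L →
          FineP ℓ (algebraMap K L (algebraMap (𝓞 K) K a)) (f.map (algebraMap K L)))} (by
        intro a ha v hv hav
        by_contra hcon
        refine ha ⟨?_, v, (hT v hv).1, (hT v hv).2 a hav hcon⟩
        rintro rfl
        exact hcon (Ideal.zero_mem _))
    exact h1.trans (mul_le_mul_of_nonneg_right hTε.le (Nat.cast_nonneg _))

end Pool.Agent.U218.VX
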